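import Pool.Agent.Helper7.TY.Closure
import Pool.Agent.Helper7.TB.ClD
import Pool.Agent.Helper7.TB.RowChk
import Pool.Agent.Helper57.TI.Iso

/-!
MP_8ee768_co, project TH-Y', stage TB2: `IsoL` for the rows, from helper57's completeness of the
isomorphisms between the types and the closure checks.
-/

set_option autoImplicit false
set_option maxRecDepth 100000

namespace Pool.Agent.Helper7.TY

open Finset
open Pool.Agent.Helper97.CV
open Pool.Agent.Helper79.CV
open Pool.Agent.Helper63.SIMD
open Pool.Agent.Helper91.TY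
open Pool.Agent.Helper7.TB
open Pool.Agent.Helper57.TY (cd nib nib_cd)
open Pool.Agent.Helper57.TI (IsoH iso_types auts)

/-- the closure checks -/
def ClH : Prop := cl0.all clT = true ∧ cl1.all clT = true ∧ cl2.all clT = true ∧
  cl3.all clT = true

theorem valS_cd (s : Equiv.Perm (Fin 13)) : ValS s (cd s) := by
  intro i hi
  have h := nib_cd s i.val
  rw [dif_pos hi] at h
  exact h.symm

/-- the code of the identity -/
def idc : ℕ := 0xa9876543210

theorem valS_one : ValS 1 idc := by
  intro i hi
  show i.val = dig idc i.val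
  revert i
  decide +kernel

/-- the automorphisms of an entry of the closure data are all those of helper57 -/
noncomputable def cmpA (x : ℕ × List (ℕ × ℕ × ℕ × List ℕ) × List ℕ × List (List ℕ)) : Bool :=
  (auts x.1).all fun v => x.2.2.1.any (Nat.beq v)

theorem cmpA_ok : cl0.all cmpA = true ∧ cl1.all cmpA = true ∧ cl2.all cmpA = true ∧
    cl3.all cmpA = true := by decide +kernel

/-- all types of the closure data -/
def ntl : List ℕ := cl0.map (fun x => x.1) ++ (cl1.map (fun x => x.1) ++
  (cl2.map (fun x => x.1) ++ cl3.map (fun x => x.1)))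

/-- only the identity, or in the closure data -/
noncomputable def covT (t : ℕ) : Bool :=
  (auts t).all (Nat.beq idc) || (Nat.ble t 1 || ntl.any (Nat.beq t))

theorem covT_ok : allR 5074 covT = true := by decide +kernel

/-- every automorphism of a type leaves its row invariant -/
theorem row_closed (hC : ClH) {t : ℕ} (ht : InR 5074 t) {ρ : Equiv.Perm (Fin 13)}
    (h11 : ρ 11 = 11) (h12 : ρ 12 = 12) (hρ : cd ρ ∈ auts t) :
    Cl (LSet (nl t) (laneL (rowP t)) (cls t)) ρ := by
  have h1 := allR_spec covT_ok t ht.2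
  unfold covT at h1
  rw [Bool.or_eq_true, Bool.or_eq_true, List.all_eq_true] at h1
  rcases h1 with h2 | h2 | h2
  · have h3 : idc = cd ρ := Nat.eq_of_beq_eq_true (h2 _ hρ)
    have h4 : ValS ρ idc := by
      rw [h3]
      exact valS_cd ρ
    rw [h4.eq valS_one h11 h12 rfl rfl]
    exact Cl.one _
  · exact absurd (Nat.le_of_ble_eq_true h2) (by have := ht.1; omega)
  · rw [List.any_eq_true] at h2
    obtain ⟨t', h3, h4⟩ := h2
    have h5 : t = t' := Nat.eq_of_beq_eq_true h4
    subst h5
    have key : ∀ l : List (ℕ × List (ℕ × ℕ × ℕ × List ℕ) × List ℕ × List (List ℕ)),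
        l.all clT = true → l.all cmpA = true → t ∈ l.map (fun x => x.1) →
        Cl (LSet (nl t) (laneL (rowP t)) (cls t)) ρ := by
      intro l hl hl' hmem
      obtain ⟨x, hx, hxt⟩ := List.mem_map.1 hmem
      have h6 := List.all_eq_true.1 hl x hx
      have h7 := List.all_eq_true.1 hl' x hx
      unfold cmpA at h7
      rw [List.all_eq_true] at h7
      have h8 := h7 (cd ρ) (by rw [hxt]; exact hρ)
      rw [List.any_eq_true] at h8
      obtain ⟨v, hv, h9⟩ := h8
      have h10 : cd ρ = v := Nat.eq_of_beq_eq_true h9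
      have h11' := clT_sound h6 hv h11 h12 (by rw [← h10]; exact valS_cd ρ)
      rw [hxt] at h11'
      exact h11'
    unfold ntl at h3
    rw [List.mem_append, List.mem_append, List.mem_append] at h3
    rcases h3 with h | h | h | h
    · exact key cl0 hC.1 cmpA_ok.1 h
    · exact key cl1 hC.2.1 cmpA_ok.2.1 h
    · exact key cl2 hC.2.2.1 cmpA_ok.2.2.1 h
    · exact key cl3 hC.2.2.2 cmpA_ok.2.2.2 h

/-- **isomorphisms of the types and the rows** -/
theorem isoL_rows (hB : IsoH) (hC : ClH) :
    IsoL 5074 typ fun t => LSet (nl t) (laneL (rowP t)) (cls t) := by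
  intro t ht t' ht' ρ h11 h12 h
  obtain ⟨h1, h2⟩ := iso_types hB ht.2 ht'.2 h11 h12 h
  subst h1
  refine ⟨rfl, ?_⟩
  exact (row_closed hC ht h11 h12 h2).symm (finite_lSet _ _ _)

theorem lSet_lane {t : ℕ} (ht : t < 5074) :
    LSet (nl t) (laneL (rowP t)) (cls t) = LSet (nl t) (lane t) (cls t) := by
  have h : ∀ i < nl t, laneL (rowP t) i = lane t i := fun i hi => by
    rw [← laneF_eq, laneF_fld ht hi, lane_eq]
  ext q
  constructor
  · rintro ⟨i, hi, rfl⟩
    exact ⟨i, hi, by rw [h i hi]⟩
  · rintro ⟨i, hi, rfl⟩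
    exact ⟨i, hi, by rw [h i hi]⟩

/-- **isomorphisms of the types and the rows**, lanes by `lane` -/
theorem isoL_lane (hB : IsoH) (hC : ClH) :
    IsoL 5074 typ fun t => LSet (nl t) (lane t) (cls t) := by
  intro t ht t' ht' ρ h11 h12 h
  obtain ⟨h1, h2⟩ := isoL_rows hB hC t ht t' ht' ρ h11 h12 h
  refine ⟨h1, ?_⟩
  intro q hq
  have h3 : q ∈ LSet (nl t') (laneL (rowP t')) (cls t') := by
    rw [lSet_lane ht'.2]
    exact hq
  have h4 : (q.1, mapF ρ.symm q.2) ∈ LSet (nl t) (laneL (rowP t)) (cls t) := h2 q h3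
  rw [lSet_lane ht.2] at h4
  exact h4

end Pool.Agent.Helper7.TY
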