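import Pool.Agent.Helper7.TY.TB2
import Pool.Agent.Helper79.CV.FLane

/-!
MP_8ee768_co, project TH-Y', stage TB2: the tables in helper79's form `TabP` (with class numbers).
-/

set_option autoImplicit false

namespace Pool.Agent.Helper7.TY

open Finset
open Pool.Agent.Helper97.CV
open Pool.Agent.Helper79.CV
open Pool.Agent.Helper63.SIMD
open Pool.Agent.Helper82.TY (below)
open Pool.Agent.Helper7.TB

/-- the labelled list of the row of the type `t` -/
noncomputable def rowL (t : ℕ) : List (ℕ × ℕ) :=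
  (List.range (nl t)).map fun i => (cls t i, fld 330 (row t) i)

/-- **TB2 as a table with class numbers** -/
theorem TB2_tabP {reps : List ℕ} (hR : RootOK 6 (fun _ => True) reps)
    (hF : FlagL reps 5074 typ fun t => LSet (nl t) (lane t) (cls t))
    (hI : IsoL 5074 typ fun t => LSet (nl t) (lane t) (cls t))
    {t : ℕ} (h2 : 2 ≤ t) (ht : t < 5074) : TabP reps (typ t) 6 (fun _ _ => True) (rowL t) := by
  intro D hD hlink hcap _
  obtain ⟨i, hi, h, r, hr, σ, -, hσ⟩ := TB2_lab hR hF hI h2 ht hD hlink hcap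
  exact ⟨cls t i, fld 330 (row t) i, List.mem_map.2 ⟨i, List.mem_range.2 hi, rfl⟩,
    ⟨r, hr, σ, hσ⟩, h⟩

end Pool.Agent.Helper7.TY
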