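import Pool.Agent.Helper79.CV.Linkage

/-!
MP_8ee768_co, project TH-Y', stage TB2: completeness of the tables of the pair links with
`19 + 2 m` blocks, `m ≥ 1`, from the classification (`RootOK`), the flag certificates and the
completeness of the isomorphisms between the types. Every entry of a table carries the number of its
class.
-/

set_option autoImplicit false

namespace Pool.Agent.Helper7.TY

open Finset
open Pool.Agent.Helper89.CV (OddCover ofMask)
open Pool.Agent.Helper97.CV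
open Pool.Agent.Helper79.CV
open Pool.Agent.Helper82.TY (below)

/-- the labelled set of the lanes: pairs (class number, family) -/
def LSet (N : ℕ) (ln cl : ℕ → ℕ) : Set (ℕ × Finset (Finset (Fin 13))) :=
  {q | ∃ i < N, q = (cl i, fam 11 4 (ln i))}

/-- the indices of the types with `m ≥ 1` -/
def InR (NT t : ℕ) : Prop := 2 ≤ t ∧ t < NT

/-- every flag (representative, point) whose pair link has not `19` blocks is carried to a type and
a member of its table -/
def FlagOK (reps : List ℕ) (NT : ℕ) (typ : ℕ → ℕ) (lanes : ℕ → Set (Finset (Finset (Fin 13)))) :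
    Prop :=
  ∀ r ∈ reps, ∀ p : Fin 13, p ≠ 12 → (link (fam 12 4 r) p).card ≠ 19 →
    ∃ t, InR NT t ∧ ∃ ψ : Equiv.Perm (Fin 13), ψ 12 = 12 ∧ ψ p = 11 ∧
      link (mapF ψ (fam 12 4 r)) 11 = fam 11 3 (typ t) ∧
      (mapF ψ (fam 12 4 r)).filter (fun s => (11 : Fin 13) ∉ s) ∈ lanes t

/-- the same with the number of the class of the representative in the table -/
def FlagL (reps : List ℕ) (NT : ℕ) (typ : ℕ → ℕ)
    (lanes : ℕ → Set (ℕ × Finset (Finset (Fin 13)))) : Prop :=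
  ∀ j r, reps[j]? = some r → ∀ p : Fin 13, p ≠ 12 → (link (fam 12 4 r) p).card ≠ 19 →
    ∃ t, InR NT t ∧ ∃ ψ : Equiv.Perm (Fin 13), ψ 12 = 12 ∧ ψ p = 11 ∧
      link (mapF ψ (fam 12 4 r)) 11 = fam 11 3 (typ t) ∧
      (j, (mapF ψ (fam 12 4 r)).filter (fun s => (11 : Fin 13) ∉ s)) ∈ lanes t

theorem FlagL.flagOK {reps : List ℕ} {NT : ℕ} {typ : ℕ → ℕ} {nl : ℕ → ℕ} {ln cl : ℕ → ℕ → ℕ}
    (h : FlagL reps NT typ fun t => LSet (nl t) (ln t) (cl t)) :
    FlagOK reps NT typ fun t => {E | ∃ i < nl t, E = fam 11 4 (ln t i)} := by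
  intro r hr p hp hc
  obtain ⟨j, hj, hjr⟩ := List.mem_iff_getElem.1 hr
  obtain ⟨t, ht, ψ, h1, h2, h3, i, hi, h4⟩ :=
    h j r (by rw [List.getElem?_eq_getElem hj, hjr]) p hp hc
  exact ⟨t, ht, ψ, h1, h2, h3, i, hi, congrArg Prod.snd h4⟩

/-- an isomorphism between two types: the types are equal and the table is closed under it -/
def IsoL (NT : ℕ) (typ : ℕ → ℕ) (lanes : ℕ → Set (ℕ × Finset (Finset (Fin 13)))) : Prop :=
  ∀ t, InR NT t → ∀ t', InR NT t' → ∀ ρ : Equiv.Perm (Fin 13), ρ 11 = 11 → ρ 12 = 12 →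
    mapF ρ (fam 11 3 (typ t)) = fam 11 3 (typ t') →
    t = t' ∧ ∀ q ∈ lanes t', (q.1, mapF ρ.symm q.2) ∈ lanes t

/-- TB2 with class numbers -/
theorem lab_of_flags {cap NT : ℕ} {P : Finset (Finset (Fin 13)) → Prop} {reps : List ℕ}
    {typ : ℕ → ℕ} {lanes : ℕ → Set (ℕ × Finset (Finset (Fin 13)))}
    (hR : RootOK cap P reps) (hF : FlagL reps NT typ lanes) (hI : IsoL NT typ lanes)
    {t : ℕ} (ht : InR NT t) (hcard : (fam 11 3 (typ t)).card ≠ 19)
    {D : Finset (Finset (Fin 13))} (hD : OddFam 3 (below 12) D) (hlink : link D 11 = fam 11 3 (typ t))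
    (hcap : 2 * D.card ≤ 114 + cap) (hP : P D) :
    ∃ j, (∃ r, reps[j]? = some r ∧ ∃ σ : Equiv.Perm (Fin 13), σ 12 = 12 ∧
      mapF σ D = fam 12 4 r) ∧ (j, D.filter (fun s => (11 : Fin 13) ∉ s)) ∈ lanes t := by
  obtain ⟨σ, hσ, r, hr, hσr⟩ := hR D hD hcap hP
  obtain ⟨j, hj, hjr⟩ := List.mem_iff_getElem.1 hr
  have hjr' : reps[j]? = some r := by rw [List.getElem?_eq_getElem hj, hjr]
  have hp : σ 11 ≠ 12 := by
    intro h
    have h1 : σ 11 = σ 12 := by rw [h, hσ]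
    exact absurd (σ.injective h1) (by decide)
  have hl : link (fam 12 4 r) (σ 11) = mapF σ (fam 11 3 (typ t)) := by
    rw [← hσr, link_mapF, hlink]
  obtain ⟨t', ht', ψ, h12, h11, hψ, hmem⟩ :=
    hF j r hjr' (σ 11) hp (by rw [hl, card_mapF]; exact hcard)
  have hρ : mapF (ψ * σ) (fam 11 3 (typ t)) = fam 11 3 (typ t') := by
    rw [mapF_mul, ← hl, ← hψ]
    have h := link_mapF ψ (fam 12 4 r) (σ 11)
    rw [h11] at h
    exact h.symm
  obtain ⟨htt, hcl⟩ := hI t ht t' ht' (ψ * σ) (by rw [Equiv.Perm.mul_apply, h11])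
    (by rw [Equiv.Perm.mul_apply, hσ, h12]) hρ
  subst htt
  have h1 := hcl _ hmem
  have h2 : mapF (ψ * σ).symm ((mapF ψ (fam 12 4 r)).filter (fun s => (11 : Fin 13) ∉ s)) =
      D.filter (fun s => (11 : Fin 13) ∉ s) := by
    have h3 : mapF (ψ * σ).symm (mapF ψ (fam 12 4 r)) = D := by
      rw [← hσr, ← mapF_mul ψ σ, mapF_symm_mapF]
    rw [mapF_filter (ψ * σ).symm _ _ (fun s => (11 : Fin 13) ∉ s), h3]
    intro s
    have h4 : (ψ * σ).symm 11 = 11 := by
      rw [Equiv.symm_apply_eq, Equiv.Perm.mul_apply, h11]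
    constructor
    · intro h5 h6
      exact h5 (by rw [← h4]; exact mem_mapS.2 h6)
    · intro h5 h6
      rw [← h4] at h6
      exact h5 (mem_mapS.1 h6)
  have h3 : (j, mapF (ψ * σ).symm ((mapF ψ (fam 12 4 r)).filter (fun s => (11 : Fin 13) ∉ s))) ∈
      lanes t := h1
  rw [h2] at h3
  exact ⟨j, ⟨r, hjr', σ, hσ, hσr⟩, h3⟩

/-- TB2: completeness of the tables with `m ≥ 1` -/
theorem tableOK_of_flags {cap NT : ℕ} {P : Finset (Finset (Fin 13)) → Prop} {reps : List ℕ}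
    {typ : ℕ → ℕ} {lanes : ℕ → Set (ℕ × Finset (Finset (Fin 13)))}
    (hR : RootOK cap P reps) (hF : FlagL reps NT typ lanes) (hI : IsoL NT typ lanes)
    {t : ℕ} (ht : InR NT t) (hcard : (fam 11 3 (typ t)).card ≠ 19) :
    TableOK (typ t) cap P {E | ∃ j, (j, E) ∈ lanes t} := by
  intro D hD hlink hcap hP
  obtain ⟨j, -, h⟩ := lab_of_flags hR hF hI ht hcard hD hlink hcap hP
  exact ⟨j, h⟩

end Pool.Agent.Helper7.TY
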