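import Pool.Agent.Helper7.TY.Table
import Pool.Agent.Helper16.TY.Cls
import Pool.Agent.Helper82.TY.PopR

/-!
MP_8ee768_co, project TH-Y', stage TB2: the check of the flags (class, point).

A record `r` of a class `j` holds a point `p`, a type `t`, a lane `i` of the row of the type and
`66` bits for helper16's network, which carries the representative of the class `j`, with the
marker `p`, to the code `ty t * 2 ^ 330 + ln t i`, with the marker `11`.
-/

set_option autoImplicit false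
set_option maxRecDepth 100000

namespace Pool.Agent.Helper7.TY

open Finset
open Pool.Agent.Helper89.CV (OddCover ofMask)
open Pool.Agent.Helper97.CV
open Pool.Agent.Helper79.CV
open Pool.Agent.Helper33.CV
open Pool.Agent.Helper63.SIMD
open Pool.Agent.Helper16.TY
open Pool.Agent.Helper82.TY (pop popR popc force supM force_eq popR_eq_pop cnt_eq_pop)

/-! ## codes with a marker -/

theorem enc_marker (p : Fin 13) (hp : p ≠ 12) :
    enc 12 1 ({({p} : Finset (Fin 13))} : Finset (Finset (Fin 13))) = 2 ^ p.val := by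
  revert p
  decide +kernel

theorem mapF_marker (σ : Equiv.Perm (Fin 13)) (p : Fin 13) :
    mapF σ ({({p} : Finset (Fin 13))} : Finset (Finset (Fin 13))) = {{σ p}} := by
  unfold mapF
  rw [image_singleton, mapS_singleton]

theorem keeps_of_fix {σ : Equiv.Perm (Fin 13)} (h12 : σ 12 = 12) : Keeps 12 σ := by
  intro a ha
  have h1 : a ≠ 12 := fun h1 => by
    rw [h1] at ha
    exact absurd ha (by decide)
  have h2 : σ a ≠ 12 := fun h2 => h1 (σ.injective (h2.trans h12.symm))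
  have h3 := (σ a).isLt
  have h4 : (σ a).val ≠ 12 := fun h4 => h2 (Fin.ext h4)
  omega

/-- reading a code with marker -/
theorem of_code_eq {D E : Finset (Finset (Fin 13))} {p q : Fin 13} (hp : p ≠ 12) (hq : q ≠ 12)
    (hD : ∀ s ∈ D, Sub 12 4 s) (hE : ∀ s ∈ E, Sub 12 4 s)
    (h : code D {{p}} = code E {{q}}) : D = E ∧ p = q := by
  unfold code at h
  rw [enc_marker p hp, enc_marker q hq] at h
  have h1 : enc 12 4 D < 2 ^ 495 := enc_lt 12 4 D
  have h2 : enc 12 4 E < 2 ^ 495 := enc_lt 12 4 E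
  have h3 := congrArg (fun v => v % 2 ^ 495) h
  have h4 := congrArg (fun v => v / 2 ^ 495) h
  simp only [Nat.mul_add_mod, Nat.mod_eq_of_lt h1, Nat.mod_eq_of_lt h2] at h3
  simp only [Nat.mul_add_div (Nat.two_pow_pos 495), Nat.div_eq_of_lt h1, Nat.div_eq_of_lt h2,
    Nat.add_zero] at h4
  exact ⟨enc_injective (by norm_num) hD hE h3, Fin.ext (Nat.pow_right_injective (le_refl 2) h4)⟩

/-! ## the two parts of a code `ty * 2 ^ 330 + ln` -/

theorem link_fam_last {T l : ℕ} (hT : T < 2 ^ 165) (hl : l < 2 ^ 330) :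
    link (fam 12 4 (T * 2 ^ 330 + l)) 11 = fam 11 3 T ∧
      (fam 12 4 (T * 2 ^ 330 + l)).filter (fun s => (11 : Fin 13) ∉ s) = fam 11 4 l := by
  have hN : T * 2 ^ 330 + l < 2 ^ (12 : ℕ).choose 4 := by
    have h1 : (12 : ℕ).choose 4 = 165 + 330 := by decide
    rw [h1, pow_add]
    calc T * 2 ^ 330 + l < T * 2 ^ 330 + 2 ^ 330 := by omega
      _ = (T + 1) * 2 ^ 330 := by ring
      _ ≤ 2 ^ 165 * 2 ^ 330 := Nat.mul_le_mul_right _ hT
  have he := enc_fam (k := 4) (show 12 ≤ 13 by norm_num) hN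
  set D := fam 12 4 (T * 2 ^ 330 + l) with hD
  have hsub : ∀ s ∈ D, Sub 12 4 s := fun s hs => sub_of_mem_fam (by norm_num) hs
  have h3 : (11 : ℕ).choose 4 = 330 := by decide
  have h4 : (11 : ℕ).choose 3 = 165 := by decide
  have hs := enc_shift (11 : Fin 13) 3 D
  have hm := enc_mod 11 3 D
  have e1 : ((11 : Fin 13).val) = 11 := rfl
  rw [e1] at hs
  norm_num only at hs hm
  rw [he, h3] at hs hm
  rw [Nat.shiftRight_eq_div_pow] at hs
  have hs' : enc 11 3 (link D 11) = T := by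
    rw [← hs, Nat.mul_comm, Nat.mul_add_div (Nat.two_pow_pos 330), Nat.div_eq_of_lt hl,
      Nat.add_zero]
  have hm' : enc 11 4 D = l := by
    rw [← hm, Nat.mul_comm, Nat.mul_add_mod, Nat.mod_eq_of_lt hl]
  constructor
  · rw [← hs', fam_enc (by norm_num)]
    intro s hs1
    rw [mem_link] at hs1
    have h5 := hsub _ hs1.2
    refine ⟨?_, ?_⟩
    · rw [mk_lt_iff]
      intro a ha
      have h6 := mk_lt_iff.1 h5.1 a (mem_insert_of_mem ha)
      have h7 : a ≠ 11 := fun h7 => hs1.1 (h7 ▸ ha)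
      have h8 : a.val ≠ 11 := fun h8 => h7 (Fin.ext h8)
      omega
    · have h6 := h5.2
      rw [card_insert_of_notMem hs1.1] at h6
      omega
  · have h9 : enc 11 4 (D.filter (fun s => (11 : Fin 13) ∉ s)) = enc 11 4 D := by
      refine Nat.eq_of_testBit_eq fun i => ?_
      by_cases hi : i < (L 11 4).length
      · rw [testBit_enc _ hi, testBit_enc _ hi, decide_eq_decide, mem_filter]
        constructor
        · exact fun h => h.1
        · exact fun h => ⟨h, notMem_ofMask 11 (lt_of_mem_L (List.getElem_mem hi))⟩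
      · rw [testBit_enc_ge _ (by omega), testBit_enc_ge _ (by omega)]
    rw [← hm', ← h9, fam_enc (by norm_num)]
    intro s hs1
    rw [mem_filter] at hs1
    have h5 := hsub _ hs1.1
    refine ⟨?_, h5.2⟩
    rw [mk_lt_iff]
    intro a ha
    have h6 := mk_lt_iff.1 h5.1 a ha
    have h7 : a ≠ 11 := fun h7 => hs1.2 (h7 ▸ ha)
    have h8 : a.val ≠ 11 := fun h8 => h7 (Fin.ext h8)
    omega

/-! ## records -/

/-- the network bits -/
def rC (r : ℕ) : ℕ := Nat.land r 0x3ffffffffffffffff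
/-- the lane -/
def rI (r : ℕ) : ℕ := Nat.land (Nat.shiftRight r 66) 0x3fff
/-- the type -/
def rT (r : ℕ) : ℕ := Nat.land (Nat.shiftRight r 80) 0x1fff
/-- the point -/
def rP (r : ℕ) : ℕ := Nat.land (Nat.shiftRight r 93) 0xf

/-- start lane -/
def startC (rp : ℕ → ℕ) (x : ℕ × ℕ) : ℕ :=
  Nat.add (Nat.shiftLeft 1 (Nat.add 495 (rP x.2))) (rp x.1)

/-- end lane -/
def endC (ty : ℕ → ℕ) (ln : ℕ → ℕ → ℕ) (x : ℕ × ℕ) : ℕ :=
  Nat.add (Nat.shiftLeft 1 506) (Nat.add (Nat.shiftLeft (ty (rT x.2)) 330) (ln (rT x.2) (rI x.2)))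

/-- all records of a list of classes -/
def recsOf : List (ℕ × List ℕ) → List (ℕ × ℕ)
  | [] => []
  | x :: l => x.2.map (fun r => (x.1, r)) ++ recsOf l

theorem mem_recsOf {l : List (ℕ × List ℕ)} {x : ℕ × List ℕ} (hx : x ∈ l) {r : ℕ} (hr : r ∈ x.2) :
    (x.1, r) ∈ recsOf l := by
  induction l with
  | nil => exact absurd hx List.not_mem_nil
  | cons y l ih =>
    rcases List.mem_cons.1 hx with h | h
    · subst h
      exact List.mem_append_left _ (List.mem_map.2 ⟨r, hr, rfl⟩)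
    · exact List.mem_append_right _ (ih h)

/-- the ranges of the fields and the class number of the lane -/
def okRec (NT : ℕ) (nl : ℕ → ℕ) (cl : ℕ → ℕ → ℕ) (x : ℕ × ℕ) : Bool :=
  Nat.blt (rP x.2) 12 && (Nat.ble 2 (rT x.2) && (Nat.blt (rT x.2) NT &&
    (Nat.blt (rI x.2) (nl (rT x.2)) && Nat.beq (cl (rT x.2) (rI x.2)) x.1)))

/-- the check of `N` records -/
def recChk (NT : ℕ) (nl rp ty : ℕ → ℕ) (ln cl : ℕ → ℕ → ℕ) (N : ℕ) (xs : List (ℕ × ℕ)) : Bool :=
  Nat.beq xs.length N && (xs.all (okRec NT nl cl) &&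
    Nat.beq (runN (rep 512 N) net (packL 512 (xs.map fun x => rC x.2))
      (packL 512 (xs.map (startC rp)))) (packL 512 (xs.map (endC ty ln))))

theorem rC_lt (r : ℕ) : rC r < 2 ^ 512 :=
  lt_of_le_of_lt Nat.and_le_right (by decide +kernel)

theorem recChk_sound {NT : ℕ} {nl rp ty : ℕ → ℕ} {ln cl : ℕ → ℕ → ℕ} {N : ℕ} {xs : List (ℕ × ℕ)}
    (hrp : ∀ j, rp j < 2 ^ 495) (hty : ∀ t, ty t < 2 ^ 165) (hln : ∀ t i, ln t i < 2 ^ 330)
    (h : recChk NT nl rp ty ln cl N xs = true) : ∀ x ∈ xs, ∃ t, InR NT t ∧ ∃ i < nl t,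
      cl t i = x.1 ∧ ∃ ψ : Equiv.Perm (Fin 13), ψ 12 = 12 ∧ (∃ p : Fin 13, p.val = rP x.2 ∧ ψ p = 11) ∧
        mapF ψ (fam 12 4 (rp x.1)) = fam 12 4 (ty t * 2 ^ 330 + ln t i) := by
  unfold recChk at h
  rw [Bool.and_eq_true, Bool.and_eq_true, Nat.beq_eq, Nat.beq_eq, List.all_eq_true] at h
  obtain ⟨h1, h2, h3⟩ := h
  intro x hx
  have h4 := h2 x hx
  unfold okRec at h4
  rw [Bool.and_eq_true, Bool.and_eq_true, Bool.and_eq_true, Bool.and_eq_true, Nat.blt_eq,
    Nat.ble_eq, Nat.blt_eq, Nat.blt_eq, Nat.beq_eq] at h4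
  obtain ⟨k, hk, hkx⟩ := List.mem_iff_getElem.1 hx
  have hlt1 : ∀ a ∈ xs.map (startC rp), a < 2 ^ 512 := by
    intro a ha
    obtain ⟨y, hy, rfl⟩ := List.mem_map.1 ha
    have h5 := h2 y hy
    unfold okRec at h5
    rw [Bool.and_eq_true, Nat.blt_eq] at h5
    show 1 <<< (495 + rP y.2) + rp y.1 < 2 ^ 512
    rw [Nat.shiftLeft_eq, one_mul]
    have h6 : 2 ^ (495 + rP y.2) ≤ 2 ^ 506 := Nat.pow_le_pow_right (by norm_num) (by omega)
    have h7 := hrp y.1
    have h8 : (2 : ℕ) ^ 506 + 2 ^ 495 < 2 ^ 512 := by decide +kernel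
    omega
  have hval : ∀ y : ℕ × ℕ, endC ty ln y = 2 ^ 506 + (ty (rT y.2) * 2 ^ 330 +
      ln (rT y.2) (rI y.2)) := by
    intro y
    show 1 <<< 506 + (ty (rT y.2) <<< 330 + ln (rT y.2) (rI y.2)) = _
    rw [Nat.shiftLeft_eq, Nat.shiftLeft_eq, one_mul]
  have hle : ∀ t i, ty t * 2 ^ 330 + ln t i < 2 ^ 495 := by
    intro t i
    have h5 := hty t
    have h6 := hln t i
    calc ty t * 2 ^ 330 + ln t i < ty t * 2 ^ 330 + 2 ^ 330 := by omega
      _ = (ty t + 1) * 2 ^ 330 := by ring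
      _ ≤ 2 ^ 165 * 2 ^ 330 := Nat.mul_le_mul_right _ h5
      _ = 2 ^ 495 := (pow_add 2 165 330).symm
  have hlt2 : ∀ a ∈ xs.map (endC ty ln), a < 2 ^ 512 := by
    intro a ha
    obtain ⟨y, -, rfl⟩ := List.mem_map.1 ha
    rw [hval]
    have h6 := hle (rT y.2) (rI y.2)
    have h8 : (2 : ℕ) ^ 506 + 2 ^ 495 < 2 ^ 512 := by decide +kernel
    omega
  set p : Fin 13 := ⟨rP x.2, by omega⟩ with hp
  have hp12 : p ≠ 12 := by
    intro h5
    have h6 : rP x.2 = 12 := congrArg Fin.val h5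
    omega
  have hX : fld 512 (packL 512 (xs.map (startC rp))) k = code (fam 12 4 (rp x.1)) {{p}} := by
    rw [fld_packL hlt1 (by rw [List.length_map]; exact hk), List.getElem_map, hkx]
    show 1 <<< (495 + rP x.2) + rp x.1 = _
    unfold code
    rw [enc_marker p hp12, enc_fam (n := 12) (k := 4) (by norm_num) (hrp x.1), Nat.shiftLeft_eq, one_mul,
      pow_add]
  obtain ⟨ψ, hψ, h5⟩ := net_sound (P := packL 512 (xs.map fun x => rC x.2)) (N := N) (i := k)
    (by rw [← h1]; exact hk) hX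
  rw [h3, fld_packL hlt2 (by rw [List.length_map]; exact hk), List.getElem_map, hkx, hval,
    mapF_marker] at h5
  set e := ty (rT x.2) * 2 ^ 330 + ln (rT x.2) (rI x.2) with he
  have h6 : code (fam 12 4 e) {{11}} = code (mapF ψ (fam 12 4 (rp x.1))) {{ψ p}} := by
    rw [← h5]
    unfold code
    rw [enc_marker 11 (by decide), enc_fam (n := 12) (k := 4) (by norm_num) (hle _ _)]
    have e1 : ((11 : Fin 13).val) = 11 := rfl
    rw [e1, ← pow_add]
  have hψp : ψ p ≠ 12 := fun h7 => hp12 (ψ.injective (h7.trans hψ.symm))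
  obtain ⟨h7, h8⟩ := of_code_eq (by decide) hψp
    (fun s hs => sub_of_mem_fam (by norm_num) hs)
    (fun s hs => by
      rw [mem_mapF'] at hs
      have h9 := (keeps_of_fix hψ).sub (sub_of_mem_fam (by norm_num) hs)
      rwa [mapS_mapS_symm] at h9) h6
  exact ⟨rT x.2, ⟨h4.2.1, h4.2.2.1⟩, rI x.2, h4.2.2.2.1, h4.2.2.2.2, ψ, hψ, ⟨p, rfl, h8.symm⟩,
    h7.symm⟩

/-! ## the classes -/

/-- star masks on `12` points -/
def stars : List (ℕ × ℕ) := (List.range 12).map fun p => (p, supM 12 4 (2 ^ p))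

/-- all points of a class are in a record or have a link of `19` blocks -/
def clsChk (st : List (ℕ × ℕ)) (rp : ℕ → ℕ) (x : ℕ × List ℕ) : Bool :=
  force (rp x.1) fun R =>
    st.all fun s => x.2.any (fun r => Nat.beq (rP r) s.1) ||
      Nat.beq (popR (Nat.land R s.2)) 19

theorem ofMask_two_pow (p : Fin 13) : ofMask (2 ^ p.val) = {p} := by
  revert p
  decide

theorem clsChk_sound {rp : ℕ → ℕ} (hrp : ∀ j, rp j < 2 ^ 495) {x : ℕ × List ℕ}
    (h : clsChk stars rp x = true) {p : Fin 13} (hp : p ≠ 12)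
    (hc : (link (fam 12 4 (rp x.1)) p).card ≠ 19) : ∃ r ∈ x.2, rP r = p.val := by
  unfold clsChk at h
  rw [force_eq, List.all_eq_true] at h
  have hp' : p.val < 12 := by
    have h1 : p.val ≠ 12 := fun h1 => hp (Fin.ext h1)
    omega
  have h1 := h (p.val, supM 12 4 (2 ^ p.val))
    (List.mem_map.2 ⟨p.val, List.mem_range.2 hp', rfl⟩)
  rw [Bool.or_eq_true, List.any_eq_true] at h1
  rcases h1 with h2 | h2
  · obtain ⟨r, hr, h3⟩ := h2
    exact ⟨r, hr, Nat.eq_of_beq_eq_true h3⟩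
  · exfalso
    apply hc
    rw [card_link]
    have h3 := cnt_eq_pop (n := 12) (k := 4) (t := 2 ^ p.val) (by norm_num)
      (Nat.pow_lt_pow_right (by norm_num) p.isLt) (D := fam 12 4 (rp x.1))
      (fun s hs => sub_of_mem_fam (by norm_num) hs)
    rw [ofMask_two_pow, enc_fam (n := 12) (k := 4) (by norm_num) (hrp x.1), ← popR_eq_pop] at h3
    rw [h3]
    exact Nat.eq_of_beq_eq_true h2

/-- the check of a chunk of classes -/
def chunkChk (st : List (ℕ × ℕ)) (NT : ℕ) (nl rp ty : ℕ → ℕ) (ln cl : ℕ → ℕ → ℕ) (N : ℕ)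
    (cs : List (ℕ × List ℕ)) : Bool :=
  cs.all (clsChk st rp) && recChk NT nl rp ty ln cl N (recsOf cs)

/-- **soundness of the flag check** -/
theorem chunkChk_sound {NT : ℕ} {nl rp ty : ℕ → ℕ} {ln cl : ℕ → ℕ → ℕ} {N : ℕ}
    {cs : List (ℕ × List ℕ)} (hrp : ∀ j, rp j < 2 ^ 495) (hty : ∀ t, ty t < 2 ^ 165)
    (hln : ∀ t i, ln t i < 2 ^ 330) (h : chunkChk stars NT nl rp ty ln cl N cs = true) :
    ∀ x ∈ cs, ∀ p : Fin 13, p ≠ 12 → (link (fam 12 4 (rp x.1)) p).card ≠ 19 →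
      ∃ t, InR NT t ∧ ∃ ψ : Equiv.Perm (Fin 13), ψ 12 = 12 ∧ ψ p = 11 ∧
        link (mapF ψ (fam 12 4 (rp x.1))) 11 = fam 11 3 (ty t) ∧
        (x.1, (mapF ψ (fam 12 4 (rp x.1))).filter (fun s => (11 : Fin 13) ∉ s)) ∈
          LSet (nl t) (ln t) (cl t) := by
  unfold chunkChk at h
  rw [Bool.and_eq_true, List.all_eq_true] at h
  intro x hx p hp hc
  obtain ⟨r, hr, hrp'⟩ := clsChk_sound hrp (h.1 x hx) hp hc
  obtain ⟨t, ht, i, hi, hcl, ψ, h12, ⟨q, hq, hq11⟩, hE⟩ :=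
    recChk_sound hrp hty hln h.2 (x.1, r) (mem_recsOf hx hr)
  have hqp : q = p := Fin.ext (by rw [hq, hrp'])
  subst hqp
  obtain ⟨h1, h2⟩ := link_fam_last (hty t) (hln t i)
  refine ⟨t, ht, ψ, h12, hq11, by rw [hE]; exact h1, ?_⟩
  rw [hE]
  exact ⟨i, hi, Prod.ext hcl.symm h2⟩

end Pool.Agent.Helper7.TY
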