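import Pool.Agent.Helper7.TY.Table
import Pool.Agent.Helper7.TB.Acc
import Pool.Agent.Helper7.TB.Cls
import Pool.Agent.Helper91.TY.Run

/-!
MP_8ee768_co, project TH-Y', stage TB2: closure of the rows under the automorphisms of the types.

A generator of the automorphism group is a word of adjacent transpositions (helper91's `run4`) with
its packed values and a certificate (16 bits per lane) for the permutation of the lanes; every
automorphism is a product of generators.
-/

set_option autoImplicit false
set_option maxRecDepth 100000

namespace Pool.Agent.Helper7.TY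

open Finset
open Pool.Agent.Helper97.CV
open Pool.Agent.Helper79.CV
open Pool.Agent.Helper33.CV
open Pool.Agent.Helper63.SIMD
open Pool.Agent.Helper91.TY
open Pool.Agent.Helper82.TY (force force_eq)
open Pool.Agent.Helper7.TB

/-! ## closed sets -/

/-- `L` is closed under `ρ` -/
def Cl (L : Set (ℕ × Finset (Finset (Fin 13)))) (ρ : Equiv.Perm (Fin 13)) : Prop :=
  ∀ q ∈ L, (q.1, mapF ρ q.2) ∈ L

theorem Cl.one (L : Set (ℕ × Finset (Finset (Fin 13)))) : Cl L 1 := by
  intro E hE
  rw [mapF_one]
  exact hE

theorem Cl.mul {L : Set (ℕ × Finset (Finset (Fin 13)))} {ρ σ : Equiv.Perm (Fin 13)} (h1 : Cl L ρ)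
    (h2 : Cl L σ) : Cl L (ρ * σ) := by
  intro q hq
  rw [mapF_mul]
  exact h1 _ (h2 _ hq)

theorem Cl.symm {L : Set (ℕ × Finset (Finset (Fin 13)))} (hL : L.Finite) {ρ : Equiv.Perm (Fin 13)}
    (h : Cl L ρ) : Cl L ρ.symm := by
  intro E hE
  obtain ⟨A, hA, hAB⟩ := Set.surj_on_of_inj_on_of_ncard_le (s := L) (t := L)
    (fun q _ => (q.1, mapF ρ q.2)) (fun q hq => h q hq) (fun A B hA hB hAB => by
      have h1 := congrArg Prod.fst hAB
      have h2 := congrArg (fun q => mapF ρ.symm (Prod.snd q)) hAB
      simp only [mapF_symm_mapF] at h1 h2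
      exact Prod.ext h1 h2) le_rfl hL E hE
  rw [hAB]
  show (A.1, mapF ρ.symm (mapF ρ A.2)) ∈ L
  rw [mapF_symm_mapF]
  exact hA

/-! ## values -/

/-- `s` has the packed values `v` on the points `0, ..., 10` -/
def ValS (s : Equiv.Perm (Fin 13)) (v : ℕ) : Prop := ∀ i : Fin 13, i.val < 11 → (s i).val = dig v i.val

theorem lt_eleven {s : Equiv.Perm (Fin 13)} (h11 : s 11 = 11) (h12 : s 12 = 12) {i : Fin 13}
    (hi : i.val < 11) : (s i).val < 11 := by
  have h1 : s i ≠ 11 := fun h => by
    have h2 := s.injective (h.trans h11.symm)
    rw [h2] at hi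
    exact absurd hi (by decide)
  have h2 : s i ≠ 12 := fun h => by
    have h2 := s.injective (h.trans h12.symm)
    rw [h2] at hi
    exact absurd hi (by decide)
  have h3 : (s i).val ≠ 11 := fun h => h1 (Fin.ext h)
  have h4 : (s i).val ≠ 12 := fun h => h2 (Fin.ext h)
  have h5 := (s i).isLt
  omega

theorem ValS.eq {s r : Equiv.Perm (Fin 13)} {v : ℕ} (hs : ValS s v) (hr : ValS r v)
    (hs11 : s 11 = 11) (hs12 : s 12 = 12) (hr11 : r 11 = 11) (hr12 : r 12 = 12) : s = r := by
  ext i
  by_cases h1 : i.val < 11
  · rw [hs i h1, hr i h1]
  · have h2 := i.isLt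
    have h3 : i = 11 ∨ i = 12 := by
      rcases (show i.val = 11 ∨ i.val = 12 by omega) with h | h
      · exact Or.inl (Fin.ext h)
      · exact Or.inr (Fin.ext h)
    rcases h3 with h | h
    · rw [h, hs11, hr11]
    · rw [h, hs12, hr12]

/-- one letter on a value -/
def stepV (a x : ℕ) : ℕ :=
  bif Nat.beq x a then Nat.succ a else bif Nat.beq x (Nat.succ a) then a else x

theorem swp_val {a : ℕ} (ha : a + 1 < 13) (b : Fin 13) : (swp a b).val = stepV a b.val := by
  unfold stepV swp
  rw [dif_pos ha]
  by_cases h1 : b.val = a
  · have h2 : Nat.beq b.val a = true := by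
      rw [Nat.beq_eq]
      exact h1
    rw [h2, cond_true]
    have h3 : b = ⟨a, by omega⟩ := Fin.ext h1
    rw [h3, Equiv.swap_apply_left]
  · have h2 : Nat.beq b.val a = false := by
      rw [Bool.eq_false_iff, Ne, Nat.beq_eq]
      exact h1
    rw [h2, cond_false]
    by_cases h3 : b.val = a + 1
    · have h4 : Nat.beq b.val (Nat.succ a) = true := by
        rw [Nat.beq_eq]
        exact h3
      rw [h4, cond_true]
      have h5 : b = ⟨a + 1, ha⟩ := Fin.ext h3
      rw [h5, Equiv.swap_apply_right]
    · have h4 : Nat.beq b.val (Nat.succ a) = false := by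
        rw [Bool.eq_false_iff, Ne, Nat.beq_eq]
        exact h3
      rw [h4, cond_false, Equiv.swap_apply_of_ne_of_ne]
      · exact fun e => h1 (congrArg Fin.val e)
      · exact fun e => h3 (congrArg Fin.val e)

/-- the value of a word at `x`, digit 0 first -/
def runV (len w x : ℕ) : ℕ := Nat.rec (motive := fun _ => ℕ) x (fun i ih => stepV (dig w i) ih) len

theorem runV_eq {len w : ℕ} (hw : ∀ a ∈ digs w len, a < 10) (b : Fin 13) :
    (wp (digs w len) b).val = runV len w b.val := by
  induction len with
  | zero => rfl
  | succ len ih =>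
    have h1 : dig w len < 10 := hw _ (by
      show dig w len ∈ digs w len ++ [dig w len]
      exact List.mem_append_right _ (List.mem_singleton.2 rfl))
    show (wp (digs w len ++ [dig w len]) b).val = stepV (dig w len) (runV len w b.val)
    rw [wp_append, ← ih (fun a ha => hw a (List.mem_append_left _ ha))]
    show (((1 : Equiv.Perm (Fin 13)) * swp (dig w len)) (wp (digs w len) b)).val = _
    rw [one_mul, swp_val (by omega)]

/-! ## the lanes -/

theorem finite_lSet (N : ℕ) (ln cl : ℕ → ℕ) : (LSet N ln cl).Finite := by
  refine Set.Finite.subset ((Finset.range N).finite_toSet.image fun i => (cl i, fam 11 4 (ln i))) ?_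
  rintro q ⟨i, hi, rfl⟩
  exact ⟨i, Finset.mem_coe.2 (mem_range.2 hi), rfl⟩

def M330 : ℕ := 0x3ffffffffffffffffffffffffffffffffffffffffffffffffffffffffffffffffffffffffffffffffff

def R48 : ℕ := 0x400000000000000000000000000000000000000000000000000000000000000000000000000000000010000000000000000000000000000000000000000000000000000000000000000000000000000000000400000000000000000000000000000000000000000000000000000000000000000000000000000000010000000000000000000000000000000000000000000000000000000000000000000000000000000000400000000000000000000000000000000000000000000000000000000000000000000000000000000010000000000000000000000000000000000000000000000000000000000000000000000000000000000400000000000000000000000000000000000000000000000000000000000000000000000000000000010000000000000000000000000000000000000000000000000000000000000000000000000000000000400000000000000000000000000000000000000000000000000000000000000000000000000000000010000000000000000000000000000000000000000000000000000000000000000000000000000000000400000000000000000000000000000000000000000000000000000000000000000000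000000000000010000000000000000000000000000000000000000000000000000000000000000000000000000000000400000000000000000000000000000000000000000000000000000000000000000000000000000000010000000000000000000000000000000000000000000000000000000000000000000000000000000000400000000000000000000000000000000000000000000000000000000000000000000000000000000010000000000000000000000000000000000000000000000000000000000000000000000000000000000400000000000000000000000000000000000000000000000000000000000000000000000000000000010000000000000000000000000000000000000000000000000000000000000000000000000000000000400000000000000000000000000000000000000000000000000000000000000000000000000000000010000000000000000000000000000000000000000000000000000000000000000000000000000000000400000000000000000000000000000000000000000000000000000000000000000000000000000000010000000000000000000000000000000000000000000000000000000000000000000000000000000000400000000000000000000000000000000000000000000000000000000000000000000000000000000010000000000000000000000000000000000000000000000000000000000000000000000000000000000400000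000000000000000000000000000000000000000000000000000000000000000000000000000010000000000000000000000000000000000000000000000000000000000000000000000000000000000400000000000000000000000000000000000000000000000000000000000000000000000000000000010000000000000000000000000000000000000000000000000000000000000000000000000000000000400000000000000000000000000000000000000000000000000000000000000000000000000000000010000000000000000000000000000000000000000000000000000000000000000000000000000000000400000000000000000000000000000000000000000000000000000000000000000000000000000000010000000000000000000000000000000000000000000000000000000000000000000000000000000000400000000000000000000000000000000000000000000000000000000000000000000000000000000010000000000000000000000000000000000000000000000000000000000000000000000000000000000400000000000000000000000000000000000000000000000000000000000000000000000000000000010000000000000000000000000000000000000000000000000000000000000000000000000000000000400000000000000000000000000000000000000000000000000000000000000000000000000000000010000000000000000000000000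00000000000000000000000000000000000000000000000000000000040000000000000000000000000000000000000000000000000000000000000000000000000000000001000000000000000000000000000000000000000000000000000000000000000000000000000000000040000000000000000000000000000000000000000000000000000000000000000000000000000000001000000000000000000000000000000000000000000000000000000000000000000000000000000000040000000000000000000000000000000000000000000000000000000000000000000000000000000001000000000000000000000000000000000000000000000000000000000000000000000000000000000040000000000000000000000000000000000000000000000000000000000000000000000000000000001000000000000000000000000000000000000000000000000000000000000000000000000000000000040000000000000000000000000000000000000000000000000000000000000000000000000000000001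

theorem M330_eq : M330 = 2 ^ 330 - 1 := by decide +kernel

theorem R48_eq : R48 = rep 330 48 := by
  unfold rep R48
  decide +kernel

/-- lane `r` of `Y` (image of the lane `i`) is a lane of the row of the same class -/
def lnC (ps : List ℕ) (cl : ℕ → ℕ) (N k Y c r : ℕ) : Bool :=
  force (Nat.land (Nat.shiftRight c (Nat.mul 16 r)) 65535) fun j =>
    Nat.blt j N && (Nat.beq (cl j) (cl (Nat.add (Nat.mul 48 k) r)) &&
      Nat.beq (Nat.land (Nat.shiftRight Y (Nat.mul 330 r)) M330) (laneL ps j))

theorem lnC_sound {ps : List ℕ} {cl : ℕ → ℕ} {N k Y c r : ℕ} (h : lnC ps cl N k Y c r = true) :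
    ∃ j < N, cl j = cl (48 * k + r) ∧ fld 330 Y r = laneL ps j := by
  unfold lnC at h
  rw [force_eq, Bool.and_eq_true, Bool.and_eq_true, Nat.blt_eq, Nat.beq_eq, Nat.beq_eq] at h
  refine ⟨_, h.1, h.2.1, ?_⟩
  rw [← h.2.2, M330_eq]
  show _ = (Y >>> (330 * r)) &&& (2 ^ 330 - 1)
  rw [Nat.and_two_pow_sub_one_eq_mod, Nat.shiftRight_eq_div_pow]
  rfl

/-- one piece -/
noncomputable def pcC (ps : List ℕ) (cl : ℕ → ℕ) (N len w k n c : ℕ) : Bool :=
  force (run4 len w R48 (getP k ps)) fun Y => allR n (lnC ps cl N k Y c)

/-- all pieces from `k` on -/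
noncomputable def genC (ps : List ℕ) (cl : ℕ → ℕ) (N len w : ℕ) (cs : List ℕ) : ℕ → Bool :=
  List.rec (motive := fun _ => ℕ → Bool) (fun k => Nat.ble N (Nat.mul 48 k))
    (fun c _ ih k => force (Nat.sub N (Nat.mul 48 k)) fun d =>
      pcC ps cl N len w k (bif Nat.ble 48 d then 48 else d) c && force (Nat.succ k) ih) cs

theorem genC_sound {ps : List ℕ} {cl : ℕ → ℕ} {N len w : ℕ} {cs : List ℕ} {k : ℕ}
    (h : genC ps cl N len w cs k = true) {i : ℕ} (hi : i < N) (hk : k ≤ i / 48) :
    ∃ j < N, cl j = cl i ∧
      fld 330 (run4 len w (rep 330 48) (ps.getD (i / 48) 0)) (i % 48) = laneL ps j := by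
  induction cs generalizing k with
  | nil =>
    have h1 : Nat.ble N (48 * k) = true := h
    rw [Nat.ble_eq] at h1
    omega
  | cons c cs ih =>
    have h1 : force (N - 48 * k) (fun d =>
      pcC ps cl N len w k (bif Nat.ble 48 d then 48 else d) c &&
        force (Nat.succ k) (genC ps cl N len w cs)) = true := h
    rw [force_eq, force_eq, Bool.and_eq_true] at h1
    rcases Nat.eq_or_lt_of_le hk with h2 | h2
    · have h3 := h1.1
      unfold pcC at h3
      rw [force_eq, getP_eq, R48_eq] at h3
      have h4 := allR_spec h3 (i % 48) (by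
        cases h5 : Nat.ble 48 (N - 48 * k) with
        | true => rw [cond_true]; exact Nat.mod_lt _ (by norm_num)
        | false => rw [cond_false]; omega)
      obtain ⟨j, hj, hc, h5⟩ := lnC_sound h4
      refine ⟨j, hj, ?_, by rw [← h2]; exact h5⟩
      rw [hc]
      congr 1
      omega
    · exact ih h1.2 h2

/-- one generator: values, length, word, certificates -/
noncomputable def gOK (ps : List ℕ) (cl : ℕ → ℕ) (N : ℕ) (g : ℕ × ℕ × ℕ × List ℕ) : Bool :=
  allR g.2.1 (fun i => Nat.blt (dig g.2.2.1 i) 10) &&
    (allR 11 (fun x => Nat.beq (runV g.2.1 g.2.2.1 x) (dig g.1 x)) &&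
      genC ps cl N g.2.1 g.2.2.1 g.2.2.2 0)

theorem gOK_sound {ps : List ℕ} {cl : ℕ → ℕ} {N : ℕ} {g : ℕ × ℕ × ℕ × List ℕ}
    (h : gOK ps cl N g = true) :
    ∃ σ : Equiv.Perm (Fin 13), σ 11 = 11 ∧ σ 12 = 12 ∧ ValS σ g.1 ∧
      Cl (LSet N (laneL ps) cl) σ := by
  unfold gOK at h
  rw [Bool.and_eq_true, Bool.and_eq_true] at h
  obtain ⟨h1, h2, h3⟩ := h
  have hw : ∀ a ∈ digs g.2.2.1 g.2.1, a < 10 := by
    intro a ha
    obtain ⟨i, hi, rfl⟩ := mem_digs.1 ha
    exact Nat.blt_eq.mp (allR_spec h1 i hi)
  have hw' : ∀ a ∈ digs g.2.2.1 g.2.1, a + 1 < 11 := fun a ha => by have := hw a ha; omega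
  refine ⟨wp (digs g.2.2.1 g.2.1), wp_fix hw' (le_refl 11), wp_fix hw' (by decide), ?_, ?_⟩
  · intro i hi
    rw [runV_eq hw]
    exact Nat.eq_of_beq_eq_true (allR_spec h2 i.val hi)
  · rintro q ⟨i, hi, rfl⟩
    obtain ⟨j, hj, hc, h4⟩ := genC_sound h3 hi (Nat.zero_le _)
    refine ⟨j, hj, Prod.ext hc.symm ?_⟩
    have h5 : laneL ps i < 2 ^ (11 : ℕ).choose 4 := by
      rw [choose_4]
      exact laneL_lt ps i
    have h6 := fld_run4_enc (W := 330) (N := 48) le_rfl hw (ps.getD (i / 48) 0)
      (i := i % 48) (Nat.mod_lt _ (by norm_num)) (D := fam 11 4 (laneL ps i)) (by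
        rw [enc_fam (n := 11) (k := 4) (by norm_num) h5, laneL_eq])
    rw [h4] at h6
    show mapF (wp (digs g.2.2.1 g.2.1)) (fam 11 4 (laneL ps i)) = fam 11 4 (laneL ps j)
    rw [h6, fam_enc (by norm_num)]
    intro s hs
    rw [mem_mapF'] at hs
    have h7 := (keeps_wp (n := 11) hw').sub (sub_of_mem_fam (by norm_num) hs)
    rwa [mapS_mapS_symm] at h7

/-! ## products -/

/-- value at `x` of a product of generators -/
def evW (gv ws : List ℕ) (x : ℕ) : ℕ :=
  List.rec (motive := fun _ => ℕ) x (fun i _ ih => dig (getP i gv) ih) ws

/-- the automorphism `v` is the product `ws` of the generators -/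
def auC (gv : List ℕ) (v : ℕ) (ws : List ℕ) : Bool :=
  ws.all (fun i => Nat.blt i gv.length) && allR 11 fun x => Nat.beq (evW gv ws x) (dig v x)

theorem evW_sound {L : Set (ℕ × Finset (Finset (Fin 13)))} {gv : List ℕ}
    (hg : ∀ v ∈ gv, ∃ σ : Equiv.Perm (Fin 13), σ 11 = 11 ∧ σ 12 = 12 ∧ ValS σ v ∧ Cl L σ)
    {ws : List ℕ} (hw : ∀ i ∈ ws, i < gv.length) :
    ∃ σ : Equiv.Perm (Fin 13), σ 11 = 11 ∧ σ 12 = 12 ∧
      (∀ i : Fin 13, i.val < 11 → (σ i).val = evW gv ws i.val) ∧ Cl L σ := by
  induction ws with
  | nil => exact ⟨1, rfl, rfl, fun i _ => rfl, Cl.one L⟩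
  | cons k ws ih =>
    obtain ⟨σ, h11, h12, hv, hc⟩ := ih fun i hi => hw i (List.mem_cons_of_mem _ hi)
    have hk := hw k List.mem_cons_self
    obtain ⟨τ, t11, t12, tv, tc⟩ := hg (gv[k]) (List.getElem_mem hk)
    refine ⟨τ * σ, by rw [Equiv.Perm.mul_apply, h11, t11], by rw [Equiv.Perm.mul_apply, h12, t12],
      ?_, tc.mul hc⟩
    intro i hi
    show (τ (σ i)).val = dig (getP k gv) (evW gv ws i.val)
    rw [tv (σ i) (lt_eleven h11 h12 hi), hv i hi, getP_eq, List.getD_eq_getElem?_getD,
      List.getElem?_eq_getElem hk]
    rfl

theorem auC_sound {L : Set (ℕ × Finset (Finset (Fin 13)))} {gv : List ℕ}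
    (hg : ∀ v ∈ gv, ∃ σ : Equiv.Perm (Fin 13), σ 11 = 11 ∧ σ 12 = 12 ∧ ValS σ v ∧ Cl L σ)
    {v : ℕ} {ws : List ℕ} (h : auC gv v ws = true) {ρ : Equiv.Perm (Fin 13)} (h11 : ρ 11 = 11)
    (h12 : ρ 12 = 12) (hρ : ValS ρ v) : Cl L ρ := by
  unfold auC at h
  rw [Bool.and_eq_true, List.all_eq_true] at h
  obtain ⟨σ, s11, s12, sv, sc⟩ := evW_sound hg (ws := ws) fun i hi => Nat.blt_eq.mp (h.1 i hi)
  have h1 : ValS σ v := by
    intro i hi
    rw [sv i hi]
    exact Nat.eq_of_beq_eq_true (allR_spec h.2 i.val hi)
  rw [hρ.eq h1 h11 h12 s11 s12]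
  exact sc

/-! ## one type -/

/-- all automorphisms against their words -/
def zipA (gv : List ℕ) : List ℕ → List (List ℕ) → Bool
  | [], _ => true
  | _ :: _, [] => false
  | v :: l, ws :: m => auC gv v ws && zipA gv l m

theorem zipA_sound {gv : List ℕ} {l : List ℕ} {m : List (List ℕ)} (h : zipA gv l m = true) :
    ∀ v ∈ l, ∃ ws, auC gv v ws = true := by
  induction l generalizing m with
  | nil => exact fun v hv => absurd hv List.not_mem_nil
  | cons a l ih =>
    cases m with
    | nil => exact absurd h (by simp [zipA])
    | cons ws m =>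
      unfold zipA at h
      rw [Bool.and_eq_true] at h
      intro v hv
      rcases List.mem_cons.1 hv with h1 | h1
      · exact ⟨ws, h1 ▸ h.1⟩
      · exact ih h.2 v h1

/-- the check of one type: type, generators, automorphisms, words -/
noncomputable def clT (x : ℕ × List (ℕ × ℕ × ℕ × List ℕ) × List ℕ × List (List ℕ)) : Bool :=
  x.2.1.all (gOK (rowP x.1) (cls x.1) (nl x.1)) && zipA (x.2.1.map fun g => g.1) x.2.2.1 x.2.2.2

theorem clT_sound {x : ℕ × List (ℕ × ℕ × ℕ × List ℕ) × List ℕ × List (List ℕ)}
    (h : clT x = true) {v : ℕ} (hv : v ∈ x.2.2.1) {ρ : Equiv.Perm (Fin 13)} (h11 : ρ 11 = 11)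
    (h12 : ρ 12 = 12) (hρ : ValS ρ v) : Cl (LSet (nl x.1) (laneL (rowP x.1)) (cls x.1)) ρ := by
  unfold clT at h
  rw [Bool.and_eq_true, List.all_eq_true] at h
  obtain ⟨ws, h1⟩ := zipA_sound h.2 v hv
  refine auC_sound ?_ h1 h11 h12 hρ
  intro u hu
  obtain ⟨g, hg, rfl⟩ := List.mem_map.1 hu
  exact gOK_sound (h.1 g hg)

end Pool.Agent.Helper7.TY
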