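import Pool.Agent.Helper7.TB.Acc
import Pool.Agent.Helper16.TY.Rows

/-!
MP_8ee768_co, project TH-Y', stage TB2: the types `2 ≤ t` have not `19` blocks.
-/

set_option autoImplicit false
set_option maxRecDepth 100000

namespace Pool.Agent.Helper7.TY

open Finset
open Pool.Agent.Helper97.CV
open Pool.Agent.Helper79.CV
open Pool.Agent.Helper63.SIMD
open Pool.Agent.Helper82.TY (popc force force_eq)
open Pool.Agent.Helper69.TY (psum psum_eq pcb pcb_le)
open Pool.Agent.Helper7.TB

theorem card_fam_three {e : ℕ} (he : e < 2 ^ 165) : (fam 11 3 e).card = pcb e 165 := by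
  have hD : ∀ s ∈ fam 11 3 e, Sub 11 3 s := fun s hs => sub_of_mem_fam (by norm_num) hs
  rw [Pool.Agent.Helper82.TY.card_eq_popc (n := 11) (k := 3) (by norm_num) hD,
    enc_fam (by norm_num) he]
  have h : ∀ n, pcb e n = ((range n).filter fun i => e.testBit i = true).card := by
    intro n
    induction n with
    | zero => rfl
    | succ n ih =>
      have e1 : pcb e (n + 1) = pcb e n + (e.testBit n).toNat := rfl
      rw [e1, ih, range_add_one, filter_insert]
      by_cases h : e.testBit n = true
      · rw [if_pos h, h, card_insert_of_notMem]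
        · rfl
        · intro h1
          exact notMem_range_self (mem_filter.1 h1).1
      · rw [if_neg h]
        rw [Bool.not_eq_true] at h
        rw [h]
        rfl
  rw [h]
  unfold popc
  congr 1
  ext i
  rw [mem_filter, mem_filter, mem_range, mem_range]
  constructor
  · rintro ⟨-, h1⟩
    refine ⟨?_, h1⟩
    by_contra h2
    rw [Nat.testBit_lt_two_pow (lt_of_lt_of_le he (Nat.pow_le_pow_right (by norm_num)
      (by omega)))] at h1
    exact Bool.false_ne_true h1
  · rintro ⟨h1, h2⟩
    exact ⟨by omega, h2⟩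

theorem typ_fld (t : ℕ) : typ t = fld 165 (tyb (t / 64)) (t % 64) := by
  have e1 : Nat.shiftRight t 6 = t / 64 := by
    have e : Nat.shiftRight t 6 = t >>> 6 := rfl
    rw [e, Nat.shiftRight_eq_div_pow]
  have e2 : Nat.land t 63 = t % 64 := by
    have e : Nat.land t 63 = t &&& (2 ^ 6 - 1) := rfl
    rw [e, Nat.and_two_pow_sub_one_eq_mod]
  unfold typ
  rw [e1, e2]
  have h : (0x1fffffffffffffffffffffffffffffffffffffffff : ℕ) = 2 ^ 165 - 1 := by decide +kernel
  rw [h]
  show (tyb (t / 64) >>> (165 * (t % 64))) &&& (2 ^ 165 - 1) = _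
  rw [Nat.and_two_pow_sub_one_eq_mod, Nat.shiftRight_eq_div_pow]
  rfl

/-- the block `k` of 64 types -/
noncomputable def cardB (k : ℕ) : Bool :=
  force (psum (tyb k) (rep 165 64) 165) fun S =>
    allR 64 fun i => Nat.ble (Nat.add (Nat.mul 64 k) i) 1 ||
      !(Nat.beq (Nat.land (Nat.shiftRight S (Nat.mul 165 i)) 0x1fffffffffffffffffffffffffffffffffffffffff) 19)

theorem cardB_ok : allR 80 cardB = true := by decide +kernel

theorem card_typ {t : ℕ} (h2 : 2 ≤ t) (ht : t < 5074) : (fam 11 3 (typ t)).card ≠ 19 := by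
  have h := allR_spec cardB_ok (t / 64) (by omega)
  unfold cardB at h
  rw [force_eq, psum_eq (by norm_num) (by norm_num)] at h
  have h1 := allR_spec h (t % 64) (Nat.mod_lt _ (by norm_num))
  rw [Bool.or_eq_true] at h1
  rcases h1 with h3 | h3
  · exfalso
    have h4 : 64 * (t / 64) + t % 64 ≤ 1 := Nat.le_of_ble_eq_true h3
    omega
  · have hm : (0x1fffffffffffffffffffffffffffffffffffffffff : ℕ) = 2 ^ 165 - 1 := by decide +kernel
    rw [hm] at h3
    have h5 : ∀ X i : ℕ, Nat.land (Nat.shiftRight X (Nat.mul 165 i)) (2 ^ 165 - 1) = fld 165 X i := by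
      intro X i
      show (X >>> (165 * i)) &&& (2 ^ 165 - 1) = _
      rw [Nat.and_two_pow_sub_one_eq_mod, Nat.shiftRight_eq_div_pow]
      rfl
    rw [h5, fld_pk (fun i _ => lt_of_le_of_lt (pcb_le _ _) (by decide +kernel))
      (Nat.mod_lt _ (by norm_num)), ← typ_fld, ← card_fam_three (typ_lt t)] at h3
    intro h6
    rw [h6] at h3
    exact absurd h3 (by decide)

end Pool.Agent.Helper7.TY
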