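import Pool.Agent.Helper7.TY.Table
import Pool.Agent.Helper7.TY.TypCard
import Pool.Agent.Helper7.TB.RowChk

/-!
MP_8ee768_co, project TH-Y', stage TB2: **the tables of the pair links with `19 + 2 m` blocks,
`m ≥ 1`, are complete**, with class numbers, from the class theorem (`RootOK`), the flags (`FlagL`,
modules `Gen/TY/FLG`) and the isomorphisms (`IsoL`, modules `Gen/TY/ISO` and `Gen/TY/TB2`).
-/

set_option autoImplicit false
set_option maxRecDepth 100000

namespace Pool.Agent.Helper7.TY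

open Finset
open Pool.Agent.Helper97.CV
open Pool.Agent.Helper79.CV
open Pool.Agent.Helper63.SIMD
open Pool.Agent.Helper82.TY (below)
open Pool.Agent.Helper7.TB

/-- **TB2 with class numbers** -/
theorem TB2_lab {reps : List ℕ} (hR : RootOK 6 (fun _ => True) reps)
    (hF : FlagL reps 5074 typ fun t => LSet (nl t) (lane t) (cls t))
    (hI : IsoL 5074 typ fun t => LSet (nl t) (lane t) (cls t))
    {t : ℕ} (h2 : 2 ≤ t) (ht : t < 5074) {D : Finset (Finset (Fin 13))}
    (hD : OddFam 3 (below 12) D) (hlink : link D 11 = fam 11 3 (typ t))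
    (hcap : 2 * D.card ≤ 114 + 6) :
    ∃ i < nl t, D.filter (fun s => (11 : Fin 13) ∉ s) = fam 11 4 (fld 330 (row t) i) ∧
      ∃ r, reps[cls t i]? = some r ∧ ∃ σ : Equiv.Perm (Fin 13), σ 12 = 12 ∧
        mapF σ D = fam 12 4 r := by
  obtain ⟨j, h1, i, hi, h3⟩ := lab_of_flags hR hF hI ⟨h2, ht⟩ (card_typ h2 ht) hD hlink hcap
    trivial
  have h4 : j = cls t i := congrArg Prod.fst h3
  have h5 := congrArg Prod.snd h3
  subst h4
  refine ⟨i, hi, ?_, h1⟩
  rw [← lane_eq]
  exact h5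

/-- **TB2** -/
theorem TB2 {reps : List ℕ} (hR : RootOK 6 (fun _ => True) reps)
    (hF : FlagL reps 5074 typ fun t => LSet (nl t) (lane t) (cls t))
    (hI : IsoL 5074 typ fun t => LSet (nl t) (lane t) (cls t))
    {t : ℕ} (h2 : 2 ≤ t) (ht : t < 5074) :
    TableOK (typ t) 6 (fun _ => True) {E | ∃ i < nl t, E = fam 11 4 (fld 330 (row t) i)} := by
  intro D hD hlink hcap _
  obtain ⟨i, hi, h, -⟩ := TB2_lab hR hF hI h2 ht hD hlink hcap
  exact ⟨i, hi, h⟩

end Pool.Agent.Helper7.TY
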